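import Pool.Agent.Lib.MP_061dbe_an.Main

namespace Pool.Agent.Lib.MP_061dbe_an

open Complex Metric Set
open scoped ComplexConjugate

/-! ### Spirallike functions with a general exponent -/

noncomputable def Ec (c z : ℂ) : ℂ := exp (-c * log (1 - z))

noncomputable def hc (c z : ℂ) : ℂ := z * Ec c z

lemma Ec_zero (c : ℂ) : Ec c 0 = 1 := by simp [Ec]

lemma hasDerivAt_Ec (c z : ℂ) (hz : ‖z‖ < 1) :
    HasDerivAt (Ec c) (c * (1 - z)⁻¹ * Ec c z) z := by
  have h : HasDerivAt (Ec c) (Ec c z * (-c * -(1 - z)⁻¹)) z :=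
    ((hasDerivAt_log z hz).const_mul (-c)).cexp
  exact h.congr_deriv (by ring)

lemma hasDerivAt_hc (c z : ℂ) (hz : ‖z‖ < 1) :
    HasDerivAt (hc c) (Ec c z + z * (c * (1 - z)⁻¹ * Ec c z)) z := by
  have h : HasDerivAt (hc c) _ z := (hasDerivAt_id z).mul (hasDerivAt_Ec c z hz)
  exact h.congr_deriv (by simp)

lemma dif_hc (c : ℂ) : DifferentiableOn ℂ (hc c) (ball 0 1) := fun z hz =>
  (hasDerivAt_hc c z (by simpa using hz)).differentiableAt.differentiableWithinAt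

lemma hc_zero (c : ℂ) : hc c 0 = 0 := by simp [hc]

lemma deriv_hc_zero (c : ℂ) : deriv (hc c) 0 = 1 := by
  rw [(hasDerivAt_hc c 0 (by simp)).deriv]; simp [Ec_zero]

noncomputable def Gc (c w : ℂ) : ℂ := conj c * (w - c * log (1 - exp w))

lemma hasDerivAt_Gc (c w : ℂ) (hw : w.re < 0) :
    HasDerivAt (Gc c) (conj c * (1 + c * (exp w * (1 - exp w)⁻¹))) w := by
  have h1 := (hasDerivAt_log (exp w) (norm_exp_lt w hw)).comp w (hasDerivAt_exp w)
  have h : HasDerivAt (Gc c) _ w := (((hasDerivAt_id w).sub (h1.const_mul c))).const_mul (conj c)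
  exact h.congr_deriv (by ring)

lemma re_deriv_pos' (c : ℂ) (h0 : 0 < normSq c) (h2 : normSq c ≤ 2 * c.re) (z : ℂ) (hz : ‖z‖ < 1) :
    0 < (conj c * (1 + c * (z * (1 - z)⁻¹))).re := by
  have hne := one_sub_ne z hz
  have hN : 0 < normSq (1 - z) := normSq_pos.mpr hne
  have h1 : -1 / 2 < (z * (1 - z)⁻¹).re := by
    have hs : normSq z < 1 := by
      rw [normSq_eq_norm_sq]; nlinarith [norm_nonneg z]
    rw [← div_eq_mul_inv, div_re, ← add_div, lt_div_iff₀ hN]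
    simp only [normSq_apply, sub_re, sub_im, one_re, one_im] at hs ⊢
    nlinarith
  have e : conj c * (1 + c * (z * (1 - z)⁻¹)) = conj c + (normSq c : ℂ) * (z * (1 - z)⁻¹) := by
    rw [← mul_conj]; ring
  rw [e, add_re, re_ofReal_mul, conj_re]
  nlinarith [mul_pos h0 (show 0 < (z * (1 - z)⁻¹).re + 1 / 2 by linarith)]

lemma injOn_Gc (c : ℂ) (h0 : 0 < normSq c) (hc2 : normSq c ≤ 2 * c.re)
    (w1 w2 : ℂ) (h1 : w1.re < 0) (h2 : w2.re < 0) (h : Gc c w1 = Gc c w2) : w1 = w2 := by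
  by_contra hne
  have hd : w2 - w1 ≠ 0 := sub_ne_zero.mpr (Ne.symm hne)
  have hre : ∀ t : ℝ, t ∈ Icc (0 : ℝ) 1 → (w1 + t * (w2 - w1)).re < 0 := by
    intro t ht
    simp only [add_re, re_ofReal_mul, sub_re]
    rcases eq_or_lt_of_le ht.1 with h0 | h0
    · rw [← h0]; simpa using h1
    · nlinarith [ht.2, mul_pos h0 (neg_pos.mpr h2), mul_nonneg (sub_nonneg.mpr ht.2) (neg_pos.mpr h1).le]
  have hder : ∀ t : ℝ, t ∈ Icc (0 : ℝ) 1 → HasDerivAt
      (fun s : ℝ => (Gc c (w1 + s * (w2 - w1)) / (w2 - w1)).re)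
      (conj c * (1 + c * (exp (w1 + t * (w2 - w1)) * (1 - exp (w1 + t * (w2 - w1)))⁻¹))).re t := by
    intro t ht
    have a1 : HasDerivAt (fun s : ℂ => w1 + s * (w2 - w1)) (w2 - w1) (t : ℂ) := by
      simpa using ((hasDerivAt_id (t : ℂ)).mul_const (w2 - w1)).const_add w1
    have a2 := ((hasDerivAt_Gc c _ (hre t ht)).comp (t : ℂ) a1).div_const (w2 - w1)
    rw [mul_div_cancel_right₀ _ hd] at a2
    exact a2.real_of_complex
  obtain ⟨t, ht, hts⟩ := exists_hasDerivAt_eq_slope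
    (fun s : ℝ => (Gc c (w1 + s * (w2 - w1)) / (w2 - w1)).re) _ zero_lt_one
    (fun t ht => (hder t ht).continuousAt.continuousWithinAt)
    (fun t ht => hder t (Ioo_subset_Icc_self ht))
  have hp := re_deriv_pos' c h0 hc2 _ (norm_exp_lt _ (hre t (Ioo_subset_Icc_self ht)))
  rw [hts] at hp
  simp [h] at hp

lemma injOn_hc (c : ℂ) (h0 : 0 < normSq c) (hc2 : normSq c ≤ 2 * c.re) :
    InjOn (hc c) (ball 0 1) := by
  intro z1 hz1 z2 hz2 h
  have n1 : ‖z1‖ < 1 := by simpa using hz1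
  have n2 : ‖z2‖ < 1 := by simpa using hz2
  have hE : ∀ z, Ec c z ≠ 0 := fun z => exp_ne_zero _
  by_cases e1 : z1 = 0
  · subst e1
    have : z2 * Ec c z2 = 0 := by simpa [hc] using h.symm
    exact ((mul_eq_zero.mp this).resolve_right (hE _)).symm
  by_cases e2 : z2 = 0
  · subst e2
    have : z1 * Ec c z1 = 0 := by simpa [hc] using h
    exact (mul_eq_zero.mp this).resolve_right (hE _)
  have hl : ∀ z : ℂ, z ≠ 0 → hc c z = exp (log z - c * log (1 - z)) := by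
    intro z hz
    rw [hc, Ec, sub_eq_add_neg (log z), exp_add, exp_log hz, neg_mul]
  rw [hl z1 e1, hl z2 e2, exp_eq_exp_iff_exists_int] at h
  obtain ⟨n, hn⟩ := h
  have hre : ∀ z : ℂ, z ≠ 0 → ‖z‖ < 1 → (log z).re < 0 := by
    intro z hz hn
    rw [log_re]; exact Real.log_neg (norm_pos_iff.mpr hz) hn
  have x2 : exp (log z2 + n * (2 * Real.pi * I)) = z2 := by
    rw [exp_add, exp_log e2, exp_int_mul_two_pi_mul_I, mul_one]
  have key := injOn_Gc c h0 hc2 (log z1) (log z2 + n * (2 * Real.pi * I)) (hre z1 e1 n1)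
    (by simpa using hre z2 e2 n2) (by
      unfold Gc
      rw [x2, exp_log e1, hn]; ring)
  rw [← x2, ← key, exp_log e1]

/-! ### Taylor coefficients -/

noncomputable def cf (f : ℂ → ℂ) (k : ℕ) : ℂ := iteratedDeriv k f 0 / (k.factorial : ℂ)

lemma cf_zero (f : ℂ → ℂ) : cf f 0 = f 0 := by simp [cf]

lemma cf_one (f : ℂ → ℂ) : cf f 1 = deriv f 0 := by simp [cf]

lemma hs_congr {f g : ℕ → ℂ} {a b : ℂ} (h : HasSum f a) (e : ∀ k, g k = f k) (e' : b = a) :
    HasSum g b := by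
  rw [e', funext e]; exact h

lemma taylor {f : ℂ → ℂ} (hf : DifferentiableOn ℂ f (ball 0 1)) {w : ℂ} (hw : ‖w‖ < 1) :
    HasSum (fun k => cf f k * w ^ k) (f w) := by
  have h := hasSum_taylorSeries_on_ball hf (z := w) (by simpa using hw)
  refine hs_congr h (fun k => ?_) rfl
  simp only [cf, smul_eq_mul, sub_zero]
  ring

lemma cda {f : ℂ → ℂ} (hf : DifferentiableOn ℂ f (ball 0 1)) (k : ℕ) : ContDiffAt ℂ k f 0 :=
  (hf.analyticAt (ball_mem_nhds 0 one_pos)).contDiffAt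

lemma cf_add {f g : ℂ → ℂ} (hf : DifferentiableOn ℂ f (ball 0 1))
    (hg : DifferentiableOn ℂ g (ball 0 1)) (k : ℕ) :
    cf (fun z => f z + g z) k = cf f k + cf g k := by
  unfold cf
  rw [iteratedDeriv_fun_add (cda hf k) (cda hg k), add_div]

lemma cf_sub {f g : ℂ → ℂ} (hf : DifferentiableOn ℂ f (ball 0 1))
    (hg : DifferentiableOn ℂ g (ball 0 1)) (k : ℕ) :
    cf (fun z => f z - g z) k = cf f k - cf g k := by
  unfold cf
  rw [iteratedDeriv_fun_sub (cda hf k) (cda hg k), sub_div]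

lemma cf_mul (a : ℂ) (f : ℂ → ℂ) (k : ℕ) : cf (fun z => a * f z) k = a * cf f k := by
  unfold cf
  rw [iteratedDeriv_const_mul_field, mul_div_assoc]

lemma cf_sum {F : ℕ → ℂ → ℂ} (hF : ∀ j, DifferentiableOn ℂ (F j) (ball 0 1)) (m k : ℕ) :
    cf (fun z => ∑ j ∈ Finset.range m, F j z) k = ∑ j ∈ Finset.range m, cf (F j) k := by
  unfold cf
  rw [iteratedDeriv_fun_sum (fun j _ => cda (hF j) k), Finset.sum_div]

/-- `u ∗ h` converges at `z` to `s` -/
def HS (u h : ℂ → ℂ) (z s : ℂ) : Prop := HasSum (fun k => cf u k * cf h k * z ^ k) s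

lemma HS.add {u v h : ℂ → ℂ} {z s t : ℂ} (hu : DifferentiableOn ℂ u (ball 0 1))
    (hv : DifferentiableOn ℂ v (ball 0 1)) (a : HS u h z s) (b : HS v h z t) :
    HS (fun w => u w + v w) h z (s + t) := by
  unfold HS at *
  refine hs_congr (HasSum.add a b) (fun k => ?_) rfl
  rw [cf_add hu hv]; ring

lemma HS.sub {u v h : ℂ → ℂ} {z s t : ℂ} (hu : DifferentiableOn ℂ u (ball 0 1))
    (hv : DifferentiableOn ℂ v (ball 0 1)) (a : HS u h z s) (b : HS v h z t) :
    HS (fun w => u w - v w) h z (s - t) := by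
  unfold HS at *
  refine hs_congr (HasSum.sub a b) (fun k => ?_) rfl
  rw [cf_sub hu hv]; ring

lemma HS.mul {u h : ℂ → ℂ} {z s : ℂ} (c : ℂ) (a : HS u h z s) :
    HS (fun w => c * u w) h z (c * s) := by
  unfold HS at *
  refine hs_congr (HasSum.mul_left c a) (fun k => ?_) rfl
  rw [cf_mul]; ring

lemma HS.sum {F : ℕ → ℂ → ℂ} {h : ℂ → ℂ} {z : ℂ} {s : ℕ → ℂ}
    (hF : ∀ j, DifferentiableOn ℂ (F j) (ball 0 1)) (m : ℕ) (a : ∀ j, HS (F j) h z (s j)) :
    HS (fun w => ∑ j ∈ Finset.range m, F j w) h z (∑ j ∈ Finset.range m, s j) := by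
  unfold HS at *
  refine hs_congr (hasSum_sum (s := Finset.range m) (fun j _ => a j)) (fun k => ?_) rfl
  rw [cf_sum hF, Finset.sum_mul, Finset.sum_mul]

/-! ### The kernels z / (1 - y z) -/

noncomputable def ey (y z : ℂ) : ℂ := z / (1 - y * z)

lemma ey_ne {y z : ℂ} (hy : ‖y‖ ≤ 1) (hz : ‖z‖ < 1) : 1 - y * z ≠ 0 := by
  apply one_sub_ne
  rw [norm_mul]
  nlinarith [norm_nonneg y, norm_nonneg z]

lemma hasDerivAt_kinv {y z : ℂ} (hy : ‖y‖ ≤ 1) (hz : ‖z‖ < 1) :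
    HasDerivAt (fun w => (1 - y * w)⁻¹) (y * ((1 - y * z)⁻¹) ^ 2) z := by
  have h : HasDerivAt (fun w : ℂ => (1 - y * w)⁻¹) (- -(y * 1) / (1 - y * z) ^ 2) z :=
    (((hasDerivAt_id z).const_mul y).const_sub 1).inv (ey_ne hy hz)
  exact h.congr_deriv (by rw [inv_pow, neg_neg, mul_one, div_eq_mul_inv])

lemma hasDerivAt_ey {y z : ℂ} (hy : ‖y‖ ≤ 1) (hz : ‖z‖ < 1) :
    HasDerivAt (ey y) (((1 - y * z)⁻¹) ^ 2) z := by
  have h : HasDerivAt (fun w => w * (1 - y * w)⁻¹) _ z :=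
    (hasDerivAt_id z).mul (hasDerivAt_kinv hy hz)
  have e : ey y = fun w => w * (1 - y * w)⁻¹ := by ext w; simp [ey, div_eq_mul_inv]
  rw [e]
  refine h.congr_deriv ?_
  have := ey_ne hy hz
  simp only [id]
  field_simp
  ring

lemma dif_ey {y : ℂ} (hy : ‖y‖ ≤ 1) : DifferentiableOn ℂ (ey y) (ball 0 1) := fun z hz =>
  (hasDerivAt_ey hy (by simpa using hz)).differentiableAt.differentiableWithinAt

lemma iteratedDeriv_ey {y : ℂ} (hy : ‖y‖ ≤ 1) (k : ℕ) : ∀ z : ℂ, ‖z‖ < 1 →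
    iteratedDeriv (k + 1) (ey y) z = ((k + 1).factorial : ℂ) * y ^ k * ((1 - y * z)⁻¹) ^ (k + 2) := by
  induction k with
  | zero =>
    intro z hz
    rw [zero_add, iteratedDeriv_one, (hasDerivAt_ey hy hz).deriv]
    simp
  | succ k ih =>
    intro z hz
    rw [iteratedDeriv_succ]
    have e : iteratedDeriv (k + 1) (ey y) =ᶠ[nhds z]
        fun w => ((k + 1).factorial : ℂ) * y ^ k * ((1 - y * w)⁻¹) ^ (k + 2) := by
      filter_upwards [isOpen_ball.mem_nhds (show z ∈ ball (0 : ℂ) 1 by simpa using hz)] with w hw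
      exact ih w (by simpa using hw)
    rw [e.deriv_eq]
    have h := ((hasDerivAt_kinv hy hz).pow (k + 2)).const_mul (((k + 1).factorial : ℂ) * y ^ k)
    have h' : HasDerivAt
      (fun w => ((k + 1).factorial : ℂ) * y ^ k * ((1 - y * w)⁻¹) ^ (k + 2)) _ z := h
    rw [h'.deriv, Nat.factorial_succ (k + 1)]
    simp only [show k + 2 - 1 = k + 1 from rfl]
    push_cast
    ring

lemma cf_ey_succ {y : ℂ} (hy : ‖y‖ ≤ 1) (k : ℕ) : cf (ey y) (k + 1) = y ^ k := by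
  have hk : (((k + 1).factorial : ℕ) : ℂ) ≠ 0 := by exact_mod_cast (k + 1).factorial_ne_zero
  unfold cf
  rw [iteratedDeriv_ey hy k 0 (by simp)]
  simp only [mul_zero, sub_zero, inv_one, one_pow, mul_one]
  field_simp

lemma HS_ey (c : ℂ) {y z : ℂ} (hy : ‖y‖ ≤ 1) (hz : ‖z‖ < 1) :
    HS (ey y) (hc c) z (z * Ec c (y * z)) := by
  have c0 : cf (hc c) 0 = 0 := by rw [cf_zero, hc_zero]
  have c1 : cf (hc c) 1 = 1 := by rw [cf_one, deriv_hc_zero]
  unfold HS
  by_cases h0 : y = 0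
  · subst h0
    have h := hasSum_single (f := fun k => cf (ey 0) k * cf (hc c) k * z ^ k) 1 (by
      intro k hk
      match k, hk with
      | 0, _ => simp [c0]
      | 1, hk => exact absurd rfl hk
      | k + 2, _ => simp [cf_ey_succ hy])
    have e : cf (ey 0) 1 = 1 := by simpa using cf_ey_succ hy 0
    simpa [e, c1, Ec_zero] using h
  · have hw : ‖y * z‖ < 1 := by
      rw [norm_mul]; nlinarith [norm_nonneg y, norm_nonneg z]
    have h := (taylor (dif_hc c) hw).mul_left y⁻¹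
    refine hs_congr h (fun k => ?_) ?_
    · cases k with
      | zero => simp [c0]
      | succ k => rw [cf_ey_succ hy]; field_simp; ring
    · rw [hc]; field_simp

end Pool.Agent.Lib.MP_061dbe_an
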