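import Pool.Agent.Lib.MP_061dbe_an.GenA

namespace Pool.Agent.Lib.MP_061dbe_an

open Complex Metric Set

/-! ### Bounded variation of the kernels along a ray -/

noncomputable def WW (d : ℝ) (ζ : ℂ) : ℂ := d * (1 - (1 - d) * ζ)⁻¹

lemma den_lb {d : ℝ} {ζ : ℂ} (h0 : 0 < d) (h1 : d ≤ 1) (hζ : ‖ζ‖ ≤ 1) :
    d ≤ ‖1 - (1 - (d : ℂ)) * ζ‖ ∧ (d + ‖1 - ζ‖) / 3 ≤ ‖1 - (1 - (d : ℂ)) * ζ‖ := by
  have n1 : ‖(1 - (d : ℂ)) * ζ‖ ≤ 1 - d := by
    have : (1 - (d : ℂ)) = ((1 - d : ℝ) : ℂ) := by push_cast; ring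
    rw [norm_mul, this, norm_real, Real.norm_eq_abs, abs_of_nonneg (by linarith)]
    nlinarith [norm_nonneg ζ]
  have a : d ≤ ‖1 - (1 - (d : ℂ)) * ζ‖ := by
    have := norm_sub_norm_le (1 : ℂ) ((1 - (d : ℂ)) * ζ)
    rw [norm_one] at this
    linarith
  refine ⟨a, ?_⟩
  have n2 : ‖(d : ℂ) * ζ‖ ≤ d := by
    rw [norm_mul, norm_real, Real.norm_eq_abs, abs_of_pos h0]
    nlinarith [norm_nonneg ζ]
  have b : ‖1 - ζ‖ ≤ ‖1 - (1 - (d : ℂ)) * ζ‖ + ‖(d : ℂ) * ζ‖ := by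
    have e : 1 - ζ = (1 - (1 - (d : ℂ)) * ζ) - (d : ℂ) * ζ := by ring
    rw [e]; exact norm_sub_le _ _
  linarith

lemma WW_le {d : ℝ} {ζ : ℂ} (h0 : 0 < d) (h1 : d ≤ 1) (hζ : ‖ζ‖ ≤ 1) : ‖WW d ζ‖ ≤ 1 := by
  have a := (den_lb h0 h1 hζ).1
  rw [WW, norm_mul, norm_inv, norm_real, Real.norm_eq_abs, abs_of_pos h0, ← div_eq_mul_inv,
    div_le_one (by linarith)]
  exact a

lemma WW_sub {d e : ℝ} {ζ : ℂ} (h0 : 0 < e) (h : e ≤ d) (h1 : d ≤ 1) (hζ : ‖ζ‖ ≤ 1) :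
    ‖WW d ζ - WW e ζ‖ ≤ 9 * (d / (d + ‖1 - ζ‖) - e / (e + ‖1 - ζ‖)) := by
  have hd : 0 < d := by linarith
  obtain ⟨a1, a2⟩ := den_lb hd h1 hζ
  obtain ⟨b1, b2⟩ := den_lb h0 (h.trans h1) hζ
  have s0 := norm_nonneg (1 - ζ)
  have na : 1 - (1 - (d : ℂ)) * ζ ≠ 0 := norm_pos_iff.mp (by linarith)
  have nb : 1 - (1 - (e : ℂ)) * ζ ≠ 0 := norm_pos_iff.mp (by linarith)
  have e1 : WW d ζ - WW e ζ = ((d - e : ℝ) : ℂ) * (1 - ζ) /
      ((1 - (1 - (d : ℂ)) * ζ) * (1 - (1 - (e : ℂ)) * ζ)) := by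
    rw [WW, WW, ← div_eq_mul_inv, ← div_eq_mul_inv, div_sub_div _ _ na nb]
    congr 1; push_cast; ring
  have e2 : 9 * (d / (d + ‖1 - ζ‖) - e / (e + ‖1 - ζ‖)) =
      (d - e) * ‖1 - ζ‖ / (((d + ‖1 - ζ‖) / 3) * ((e + ‖1 - ζ‖) / 3)) := by
    field_simp; ring
  rw [e1, e2, norm_div, norm_mul, norm_mul, norm_real, Real.norm_eq_abs,
    abs_of_nonneg (by linarith)]
  apply div_le_div_of_nonneg_left (mul_nonneg (by linarith) s0) (by positivity)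
  exact mul_le_mul a2 b2 (by positivity) (by linarith)

noncomputable def VV (s d : ℝ) : ℝ := 27 * (d / (d + s)) + 5 * d

lemma step_bound {d e : ℝ} {ζ : ℂ} (h0 : 0 < e) (h : e ≤ d) (h1 : d ≤ 1) (hζ : ‖ζ‖ ≤ 1) :
    ‖(WW d ζ ^ 2 - d ^ 2) - (WW e ζ ^ 2 - e ^ 2)‖ + ‖(d * WW d ζ - d ^ 2) - (e * WW e ζ - e ^ 2)‖
      ≤ VV ‖1 - ζ‖ d - VV ‖1 - ζ‖ e := by
  have hd : 0 < d := by linarith
  have a := WW_le hd h1 hζ
  have b := WW_le h0 (h.trans h1) hζ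
  have c := WW_sub h0 h h1 hζ
  have q : ‖(d : ℂ) ^ 2 - (e : ℂ) ^ 2‖ ≤ 2 * (d - e) := by
    have : (d : ℂ) ^ 2 - (e : ℂ) ^ 2 = ((d ^ 2 - e ^ 2 : ℝ) : ℂ) := by push_cast; ring
    rw [this, norm_real, Real.norm_eq_abs, abs_of_nonneg (by nlinarith)]
    nlinarith
  have p1 : ‖WW d ζ ^ 2 - WW e ζ ^ 2‖ ≤ 2 * ‖WW d ζ - WW e ζ‖ := by
    have : WW d ζ ^ 2 - WW e ζ ^ 2 = (WW d ζ + WW e ζ) * (WW d ζ - WW e ζ) := by ring
    rw [this, norm_mul]
    exact mul_le_mul_of_nonneg_right ((norm_add_le _ _).trans (by linarith)) (norm_nonneg _)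
  have p2 : ‖d * WW d ζ - e * WW e ζ‖ ≤ ‖WW d ζ - WW e ζ‖ + (d - e) := by
    have : d * WW d ζ - e * WW e ζ = d * (WW d ζ - WW e ζ) + ((d - e : ℝ) : ℂ) * WW e ζ := by
      push_cast; ring
    rw [this]
    refine (norm_add_le _ _).trans ?_
    rw [norm_mul, norm_mul, norm_real, norm_real, Real.norm_eq_abs, Real.norm_eq_abs,
      abs_of_pos hd, abs_of_nonneg (show 0 ≤ d - e by linarith)]
    nlinarith [norm_nonneg (WW d ζ - WW e ζ), norm_nonneg (WW e ζ)]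
  have r1 : ‖(WW d ζ ^ 2 - d ^ 2) - (WW e ζ ^ 2 - e ^ 2)‖ ≤
      ‖WW d ζ ^ 2 - WW e ζ ^ 2‖ + ‖(d : ℂ) ^ 2 - (e : ℂ) ^ 2‖ := by
    have : (WW d ζ ^ 2 - d ^ 2) - (WW e ζ ^ 2 - e ^ 2) =
      (WW d ζ ^ 2 - WW e ζ ^ 2) - ((d : ℂ) ^ 2 - (e : ℂ) ^ 2) := by ring
    rw [this]; exact norm_sub_le _ _
  have r2 : ‖(d * WW d ζ - d ^ 2) - (e * WW e ζ - e ^ 2)‖ ≤
      ‖d * WW d ζ - e * WW e ζ‖ + ‖(d : ℂ) ^ 2 - (e : ℂ) ^ 2‖ := by
    have : (d * WW d ζ - d ^ 2) - (e * WW e ζ - e ^ 2) =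
      (d * WW d ζ - e * WW e ζ) - ((d : ℂ) ^ 2 - (e : ℂ) ^ 2) := by ring
    rw [this]; exact norm_sub_le _ _
  unfold VV
  linarith

/-! ### The perturbation -/

noncomputable def PP (d : ℝ) (η z : ℂ) : ℂ := (d : ℂ) ^ 2 * (ey ((1 - d) * η) z - ey 0 z)

lemma y_le {d : ℝ} {η : ℂ} (h0 : 0 < d) (h1 : d ≤ 1) (hη : ‖η‖ = 1) :
    ‖(1 - (d : ℂ)) * η‖ ≤ 1 := by
  have : (1 - (d : ℂ)) = ((1 - d : ℝ) : ℂ) := by push_cast; ring
  rw [norm_mul, this, norm_real, Real.norm_eq_abs, abs_of_nonneg (by linarith), hη]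
  linarith

lemma hasDerivAt_PP {d : ℝ} {η z : ℂ} (h0 : 0 < d) (h1 : d ≤ 1) (hη : ‖η‖ = 1) (hz : ‖z‖ < 1) :
    HasDerivAt (PP d η) (WW d (η * z) ^ 2 - d ^ 2) z := by
  have h : HasDerivAt (PP d η) _ z := ((hasDerivAt_ey (y_le h0 h1 hη) hz).sub
    (hasDerivAt_ey (y := 0) (by simp) hz)).const_mul ((d : ℂ) ^ 2)
  refine h.congr_deriv ?_
  rw [WW, mul_assoc (1 - (d : ℂ))]
  simp only [zero_mul, sub_zero, inv_one]
  ring

lemma PP_eq (d : ℝ) (η z : ℂ) : PP d η z = z * (d * WW d (η * z) - d ^ 2) := by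
  rw [PP, WW, ey, ey, mul_assoc (1 - (d : ℂ)), div_eq_mul_inv]
  simp only [zero_mul, sub_zero, div_one]
  ring

lemma dif_PP {d : ℝ} {η : ℂ} (h0 : 0 < d) (h1 : d ≤ 1) (hη : ‖η‖ = 1) :
    DifferentiableOn ℂ (PP d η) (ball 0 1) := fun z hz =>
  (hasDerivAt_PP h0 h1 hη (by simpa using hz)).differentiableAt.differentiableWithinAt

noncomputable def lam (c : ℂ) (d : ℝ) (w : ℂ) : ℂ := (d : ℂ) ^ 2 * (Ec c ((1 - d) * w) - 1)

lemma HS_PP (c : ℂ) {d : ℝ} {η z : ℂ} (h0 : 0 < d) (h1 : d ≤ 1) (hη : ‖η‖ = 1) (hz : ‖z‖ < 1) :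
    HS (PP d η) (hc c) z (z * lam c d (η * z)) := by
  have h := ((HS_ey c (y_le h0 h1 hη) hz).sub (dif_ey (y_le h0 h1 hη)) (dif_ey (y := 0) (by simp))
    (HS_ey c (y := 0) (by simp) hz)).mul ((d : ℂ) ^ 2)
  refine hs_congr h (fun k => rfl) ?_
  rw [lam, zero_mul, Ec_zero, mul_assoc (1 - (d : ℂ))]
  ring

noncomputable def phi (dl : ℕ → ℝ) (m : ℕ) (η z : ℂ) : ℂ :=
  ∑ j ∈ Finset.range m, (-1) ^ j * (PP (dl j) η z - PP (dl (j + 1)) η z)

noncomputable def ell (c : ℂ) (dl : ℕ → ℝ) (m : ℕ) (w : ℂ) : ℂ :=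
  ∑ j ∈ Finset.range m, (-1) ^ j * (lam c (dl j) w - lam c (dl (j + 1)) w)

structure Dec (dl : ℕ → ℝ) : Prop where
  pos : ∀ j, 0 < dl j
  le : ∀ j, dl j ≤ 1
  dec : ∀ j, dl (j + 1) ≤ dl j

lemma dif_phi {dl : ℕ → ℝ} (H : Dec dl) (m : ℕ) {η : ℂ} (hη : ‖η‖ = 1) :
    DifferentiableOn ℂ (phi dl m η) (ball 0 1) :=
  DifferentiableOn.fun_sum fun j _ => ((dif_PP (H.pos j) (H.le j) hη).sub
    (dif_PP (H.pos (j + 1)) (H.le (j + 1)) hη)).const_mul _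

lemma HS_phi (c : ℂ) {dl : ℕ → ℝ} (H : Dec dl) (m : ℕ) {η z : ℂ} (hη : ‖η‖ = 1) (hz : ‖z‖ < 1) :
    HS (phi dl m η) (hc c) z (z * ell c dl m (η * z)) := by
  have h := HS.sum (F := fun j w => (-1) ^ j * (PP (dl j) η w - PP (dl (j + 1)) η w))
    (fun j => ((dif_PP (H.pos j) (H.le j) hη).sub
      (dif_PP (H.pos (j + 1)) (H.le (j + 1)) hη)).const_mul _) m
    (fun j => ((HS_PP c (H.pos j) (H.le j) hη hz).sub (dif_PP (H.pos j) (H.le j) hη)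
      (dif_PP (H.pos (j + 1)) (H.le (j + 1)) hη)
      (HS_PP c (H.pos (j + 1)) (H.le (j + 1)) hη hz)).mul ((-1) ^ j))
  refine hs_congr h (fun k => rfl) ?_
  rw [ell, Finset.mul_sum]
  exact Finset.sum_congr rfl fun j _ => by ring

lemma phi_bound {dl : ℕ → ℝ} (H : Dec dl) (m : ℕ) {η z : ℂ} (hη : ‖η‖ = 1) (hz : ‖z‖ < 1) :
    ∃ A B : ℂ, HasDerivAt (phi dl m η) A z ∧ phi dl m η z = z * B ∧ ‖A‖ + ‖B‖ ≤ 32 ∧
      (z = 0 → A = 0) := by
  have hζ : ‖η * z‖ ≤ 1 := by rw [norm_mul, hη, one_mul]; exact hz.le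
  refine ⟨∑ j ∈ Finset.range m, (-1) ^ j * ((WW (dl j) (η * z) ^ 2 - dl j ^ 2) -
      (WW (dl (j + 1)) (η * z) ^ 2 - dl (j + 1) ^ 2)),
    ∑ j ∈ Finset.range m, (-1) ^ j * ((dl j * WW (dl j) (η * z) - dl j ^ 2) -
      (dl (j + 1) * WW (dl (j + 1)) (η * z) - dl (j + 1) ^ 2)), ?_, ?_, ?_, ?_⟩
  · exact HasDerivAt.fun_sum fun j _ => ((hasDerivAt_PP (H.pos j) (H.le j) hη hz).sub
      (hasDerivAt_PP (H.pos (j + 1)) (H.le (j + 1)) hη hz)).const_mul _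
  · rw [phi, Finset.mul_sum]
    exact Finset.sum_congr rfl fun j _ => by rw [PP_eq, PP_eq]; ring
  · refine (add_le_add (norm_sum_le _ _) (norm_sum_le _ _)).trans ?_
    rw [← Finset.sum_add_distrib]
    refine (Finset.sum_le_sum (g := fun j => VV ‖1 - η * z‖ (dl j) - VV ‖1 - η * z‖ (dl (j + 1)))
      fun j _ => ?_).trans ?_
    · simp only [norm_mul, norm_pow, norm_neg, norm_one, one_pow, one_mul]
      exact step_bound (H.pos (j + 1)) (H.dec j) (H.le j) hζ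
    · rw [Finset.sum_range_sub' (fun j => VV ‖1 - η * z‖ (dl j))]
      have s0 := norm_nonneg (1 - η * z)
      have a0 := H.pos 0
      have am := H.pos m
      have b1 : dl 0 / (dl 0 + ‖1 - η * z‖) ≤ 1 := by
        rw [div_le_one (by linarith)]; linarith
      have b2 : 0 ≤ dl m / (dl m + ‖1 - η * z‖) := by positivity
      unfold VV
      linarith [H.le 0]
  · intro h0
    subst h0
    simp [WW]

/-! ### The functional is unbounded -/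

lemma ell_cont (c : ℂ) {dl : ℕ → ℝ} (H : Dec dl) (m : ℕ) : ContinuousAt (ell c dl m) 1 := by
  have h : ∀ j, ContinuousAt (lam c (dl j)) 1 := by
    intro j
    have hn : ‖(1 - (dl j : ℂ)) * 1‖ < 1 := by
      have : (1 - (dl j : ℂ)) = ((1 - dl j : ℝ) : ℂ) := by push_cast; ring
      rw [mul_one, this, norm_real, Real.norm_eq_abs, abs_of_nonneg (by linarith [H.le j])]
      linarith [H.pos j]
    have a : ContinuousAt (fun w : ℂ => Ec c ((1 - dl j) * w)) 1 :=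
      ContinuousAt.comp (f := fun w : ℂ => (1 - (dl j : ℂ)) * w)
        (hasDerivAt_Ec c _ hn).continuousAt (by fun_prop)
    exact (a.sub continuousAt_const).const_mul _
  exact tendsto_finsetSum _ fun j _ => ((h j).sub (h (j + 1))).const_mul _

lemma lam_one (m j : ℕ) (hm : 0 < m) :
    lam ⟨2 - (1 / m) ^ 2, 1 / m⟩ (Real.exp (-(Real.pi * m * j))) 1 =
      (-1) ^ j * (Real.exp (-(Real.pi * j / m)) : ℝ) -
        ((Real.exp (-(Real.pi * m * j)) ^ 2 : ℝ) : ℂ) := by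
  have hm' : (m : ℂ) ≠ 0 := by exact_mod_cast hm.ne'
  have e1 : log (1 - (1 - ((Real.exp (-(Real.pi * m * j)) : ℝ) : ℂ)) * 1) =
      -(Real.pi * m * j) := by
    rw [mul_one, sub_sub_cancel, ← ofReal_log (Real.exp_pos _).le, Real.log_exp]
    push_cast; ring
  have e2 : (⟨2 - (1 / m) ^ 2, 1 / m⟩ : ℂ) = 2 - (1 / m) ^ 2 + (1 / m) * I := by
    rw [Complex.mk_eq_add_mul_I]; push_cast; ring
  rw [lam, Ec, e1, e2, mul_sub, mul_one]
  congr 1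
  · rw [ofReal_exp, ofReal_exp, ← exp_pi_mul_I, ← exp_nat_mul, ← exp_nat_mul, ← exp_add, ← exp_add]
    congr 1
    push_cast
    field_simp
    ring
  · push_cast; ring

lemma ell_large (K : ℝ) : ∃ (c : ℂ) (dl : ℕ → ℝ) (m : ℕ) (r : ℝ), 0 < normSq c ∧
    normSq c ≤ 2 * c.re ∧ Dec dl ∧ 0 < r ∧ r < 1 ∧ K < ‖ell c dl m r‖ := by
  obtain ⟨m, hmK⟩ := exists_nat_gt (max 0 ((K + 1) / Real.exp (-Real.pi)))
  have hm0 : (0 : ℝ) < m := (le_max_left _ _).trans_lt hmK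
  have hm : 0 < m := by exact_mod_cast hm0
  have hm1 : (1 : ℝ) ≤ m := by exact_mod_cast hm
  have hK : K + 1 < m * Real.exp (-Real.pi) :=
    (div_lt_iff₀ (Real.exp_pos _)).mp ((le_max_right _ _).trans_lt hmK)
  have pi0 := Real.pi_pos
  have H : Dec (fun j => Real.exp (-(Real.pi * m * j))) := by
    refine ⟨fun j => Real.exp_pos _, fun j => ?_, fun j => ?_⟩
    · rw [Real.exp_le_one_iff, neg_nonpos]; positivity
    · rw [Real.exp_le_exp]; push_cast; nlinarith [mul_pos pi0 hm0]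
  have b0 : (0 : ℝ) < 1 / m := by positivity
  have b1 : (1 : ℝ) / m ≤ 1 := by rw [div_le_one hm0]; exact hm1
  have big : K < ‖ell ⟨2 - (1 / m) ^ 2, 1 / m⟩ (fun j => Real.exp (-(Real.pi * m * j))) m 1‖ := by
    refine lt_of_lt_of_le ?_ (re_le_norm _)
    rw [ell, re_sum]
    refine lt_of_lt_of_le ?_ (Finset.sum_le_sum (f := fun j : ℕ => Real.exp (-Real.pi) -
      (Real.exp (-(Real.pi * m * j)) ^ 2 - Real.exp (-(Real.pi * m * (j + 1 : ℕ))) ^ 2))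
        fun j hj => ?_)
    · rw [Finset.sum_sub_distrib,
        Finset.sum_range_sub' (fun j : ℕ => Real.exp (-(Real.pi * m * j)) ^ 2)]
      simp only [Finset.sum_const, Finset.card_range, nsmul_eq_mul, Nat.cast_zero, mul_zero,
        neg_zero, Real.exp_zero, one_pow]
      nlinarith [sq_nonneg (Real.exp (-(Real.pi * m * m)))]
    · have hj' : (j : ℝ) ≤ m := by exact_mod_cast (Finset.mem_range.mp hj).le
      have x1 : Real.exp (-Real.pi) ≤ Real.exp (-(Real.pi * j / m)) := by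
        rw [Real.exp_le_exp, neg_le_neg_iff, div_le_iff₀ hm0]; nlinarith
      have x2 := Real.exp_pos (-(Real.pi * (j + 1 : ℕ) / m))
      have x3 : Real.exp (-(Real.pi * m * (j + 1 : ℕ))) ^ 2 ≤ Real.exp (-(Real.pi * m * j)) ^ 2 :=
        pow_le_pow_left₀ (Real.exp_pos _).le (H.dec j) 2
      rw [lam_one m j hm, lam_one m (j + 1) hm]
      generalize Real.exp (-(Real.pi * m * (j + 1 : ℕ))) ^ 2 = u at *
      generalize Real.exp (-(Real.pi * m * j)) ^ 2 = v at *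
      generalize Real.exp (-(Real.pi * (j + 1 : ℕ) / m)) = p at *
      generalize Real.exp (-(Real.pi * j / m)) = q at *
      rw [pow_succ]
      rcases neg_one_pow_eq_or ℂ j with e | e <;> rw [e] <;> simp <;> linarith
  have hc : ContinuousAt (fun r : ℝ => ‖ell ⟨2 - (1 / m) ^ 2, 1 / m⟩
      (fun j => Real.exp (-(Real.pi * m * j))) m r‖) 1 :=
    ((ell_cont ⟨2 - (1 / m) ^ 2, 1 / m⟩ H m).comp_of_eq (f := fun r : ℝ => (r : ℂ))
      continuous_ofReal.continuousAt ofReal_one).norm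
  have ev := (hc.eventually (lt_mem_nhds (by simpa using big))).filter_mono
    (nhdsWithin_le_nhds (s := Iio (1 : ℝ)))
  obtain ⟨r, hr, hr'⟩ := (ev.and (Ioo_mem_nhdsLT (show (0 : ℝ) < 1 from one_pos))).exists
  refine ⟨_, _, m, r, ?_, ?_, H, hr'.1, hr'.2, hr⟩
  · rw [normSq_apply]; nlinarith [mul_self_nonneg (2 - (1 / (m : ℝ)) ^ 2), mul_pos b0 b0]
  · rw [normSq_apply]
    have : (1 / (m : ℝ)) ^ 2 ≤ 1 := by nlinarith
    nlinarith [sq_nonneg (1 / (m : ℝ))]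

/-! ### Minimum modulus of the Hadamard product -/

lemma summable_cf {f : ℂ → ℂ} (hf : DifferentiableOn ℂ f (ball 0 1)) {ρ : ℝ} (h0 : 0 ≤ ρ)
    (h1 : ρ < 1) : Summable fun k => ‖cf f k‖ * ρ ^ k := by
  have h := (taylor hf (w := ρ) (by simpa [abs_of_nonneg h0] using h1)).summable.norm
  simpa [abs_of_nonneg h0] using h

lemma summable_had {f h : ℂ → ℂ} (hf : DifferentiableOn ℂ f (ball 0 1))
    (hh : DifferentiableOn ℂ h (ball 0 1)) {R : ℝ} (h0 : 0 ≤ R) (h1 : R < 1) :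
    Summable fun k => ‖cf f k‖ * ‖cf h k‖ * R ^ k := by
  have s0 := Real.sqrt_nonneg R
  have s1 : √R < 1 := by rw [Real.sqrt_lt' one_pos]; simpa using h1
  have a := summable_cf hf s0 s1
  have b := summable_cf hh s0 s1
  refine Summable.of_nonneg_of_le (fun k => by positivity) (fun k => ?_)
    (b.mul_left (∑' k, ‖cf f k‖ * √R ^ k))
  have e : ‖cf f k‖ * ‖cf h k‖ * R ^ k = (‖cf f k‖ * √R ^ k) * (‖cf h k‖ * √R ^ k) := by
    have : R ^ k = √R ^ k * √R ^ k := by rw [← mul_pow, Real.mul_self_sqrt h0]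
    rw [this]; ring
  rw [e]
  exact mul_le_mul_of_nonneg_right (a.le_tsum k fun j _ => by positivity) (by positivity)

lemma min_mod {f h : ℂ → ℂ} (hf : DifferentiableOn ℂ f (ball 0 1))
    (hh : DifferentiableOn ℂ h (ball 0 1)) (f0 : f 0 = 0) (f1 : deriv f 0 = 1)
    (h1 : deriv h 0 = 1) {r : ℝ} (r0 : 0 < r) (r1 : r < 1) :
    (∃ z : ℂ, 0 < ‖z‖ ∧ ‖z‖ < 1 ∧ HS f h z 0) ∨
      ∃ z G : ℂ, ‖z‖ = r ∧ ‖G‖ ≤ 1 ∧ HS f h z (z * G) := by
  obtain ⟨R, rR, R1⟩ := exists_between r1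
  have R0 : 0 < R := r0.trans rR
  have s := (summable_nat_add_iff 1).mpr (summable_had hf hh R0.le R1)
  have s' : Summable fun k => ‖cf f (k + 1)‖ * ‖cf h (k + 1)‖ * R ^ k := by
    refine (s.mul_left R⁻¹).congr fun k => ?_
    field_simp
    ring
  have bd : ∀ (k : ℕ) (w : ℂ), w ∈ ball (0 : ℂ) R →
      ‖cf f (k + 1) * cf h (k + 1) * w ^ k‖ ≤ ‖cf f (k + 1)‖ * ‖cf h (k + 1)‖ * R ^ k := by
    intro k w hw
    rw [norm_mul, norm_mul, norm_pow]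
    have : ‖w‖ < R := by simpa using hw
    gcongr
  set G : ℂ → ℂ := fun w => ∑' k, cf f (k + 1) * cf h (k + 1) * w ^ k with hG
  have dG : DifferentiableOn ℂ G (ball 0 R) :=
    differentiableOn_tsum_of_summable_norm s' (fun k => by fun_prop) isOpen_ball bd
  have hs : ∀ w ∈ ball (0 : ℂ) R, HS f h w (w * G w) := by
    intro w hw
    have a : HasSum (fun k => cf f (k + 1) * cf h (k + 1) * w ^ k) (G w) :=
      (Summable.of_norm_bounded s' fun k => bd k w hw).hasSum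
    unfold HS
    rw [← hasSum_nat_add_iff' 1]
    refine hs_congr (a.mul_left w) (fun k => by ring) ?_
    simp [cf_zero, f0]
  have G0 : G 0 = 1 := by
    simp only [hG]
    rw [tsum_eq_single 0 fun k hk => by simp [hk]]
    simp [cf_one, f1, h1]
  have sub : closedBall (0 : ℂ) r ⊆ ball 0 R := closedBall_subset_ball rR
  by_cases hz : ∃ z ∈ closedBall (0 : ℂ) r, G z = 0
  · obtain ⟨z, hz, hz0⟩ := hz
    left
    refine ⟨z, norm_pos_iff.mpr ?_, lt_of_le_of_lt (by simpa using hz) r1, ?_⟩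
    · rintro rfl
      rw [G0] at hz0
      exact one_ne_zero hz0
    · simpa [hz0] using hs z (sub hz)
  · right
    push Not at hz
    have d : DifferentiableOn ℂ (fun w => (G w)⁻¹) (closure (ball 0 r)) := by
      rw [closure_ball _ r0.ne']
      exact (dG.mono sub).inv hz
    obtain ⟨z, hzf, hmax⟩ := exists_mem_frontier_isMaxOn_norm isBounded_ball
      (nonempty_ball.mpr r0) d.diffContOnCl
    rw [frontier_ball _ r0.ne', mem_sphere_zero_iff_norm] at hzf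
    have hzc : z ∈ closedBall (0 : ℂ) r := by simp [hzf]
    have m := hmax (subset_closure (mem_ball_self r0))
    simp only [mem_ofPred_eq, Function.comp, G0, inv_one, norm_one, norm_inv] at m
    refine ⟨z, G z, hzf, ?_, hs z (sub hzc)⟩
    exact (one_le_inv₀ (norm_pos_iff.mpr (hz z hzc))).mp m

theorem main {f : ℂ → ℂ} (hf : DifferentiableOn ℂ f (ball 0 1)) (f0 : f 0 = 0)
    (f1 : deriv f 0 = 1) {δ : ℝ} (hδ : 0 < δ) : ∃ (g h : ℂ → ℂ) (z0 : ℂ),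
    (DifferentiableOn ℂ g (ball 0 1) ∧ g 0 = 0 ∧ deriv g 0 = 1) ∧
    (∀ z ∈ ball (0 : ℂ) 1, ‖(deriv g z - deriv f z) - (g z - f z) / z‖ +
      ‖(deriv g z - deriv f z) + (g z - f z) / z‖ < 2 * δ) ∧
    ((DifferentiableOn ℂ h (ball 0 1) ∧ h 0 = 0 ∧ deriv h 0 = 1) ∧ InjOn h (ball 0 1)) ∧
    0 < ‖z0‖ ∧ ‖z0‖ < 1 ∧ HS g h z0 0 := by
  obtain ⟨c, dl, m, r, c0, c2, H, r0, r1, hK⟩ := ell_large (33 / δ)
  have hS := And.intro (And.intro (dif_hc c) (And.intro (hc_zero c) (deriv_hc_zero c)))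
    (injOn_hc c c0 c2)
  rcases min_mod hf (dif_hc c) f0 f1 (deriv_hc_zero c) r0 r1 with ⟨z, a, b, e⟩ | ⟨z0, G, a, b, e⟩
  · exact ⟨f, hc c, z, ⟨hf, f0, f1⟩, fun w _ => by simpa using hδ, hS, a, b, e⟩
  obtain ⟨η, hη, hηz⟩ := exists_unit z0
  rw [a] at hηz
  have l0 : 0 < ‖ell c dl m r‖ := lt_trans (by positivity) hK
  have lne : ell c dl m r ≠ 0 := norm_pos_iff.mp l0
  have tb : ‖-G / ell c dl m r‖ * 33 ≤ δ := by
    rw [norm_div, norm_neg, div_mul_eq_mul_div, div_le_iff₀ l0]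
    rw [div_lt_iff₀ hδ] at hK
    nlinarith
  have der : ∀ z : ℂ, ‖z‖ < 1 → ∀ A, HasDerivAt (phi dl m η) A z →
      deriv (fun w => f w + -G / ell c dl m r * phi dl m η w) z =
        deriv f z + -G / ell c dl m r * A := fun z hz A hA =>
    ((hf.differentiableAt (isOpen_ball.mem_nhds (by simpa using hz))).hasDerivAt.add
      (hA.const_mul _)).deriv
  refine ⟨fun w => f w + -G / ell c dl m r * phi dl m η w, hc c, z0,
    ⟨hf.add ((dif_phi H m hη).const_mul _), ?_, ?_⟩, fun z hz => ?_, hS, by rw [a]; exact r0,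
    by rw [a]; exact r1, ?_⟩
  · obtain ⟨A, B, -, hB, -, -⟩ := phi_bound H m hη (z := 0) (by simp)
    simp [f0, hB]
  · obtain ⟨A, B, hA, -, -, h0⟩ := phi_bound H m hη (z := 0) (by simp)
    rw [der 0 (by simp) A hA, h0 rfl, f1]; simp
  · have hz' : ‖z‖ < 1 := by simpa using hz
    obtain ⟨A, B, hA, hB, hAB, -⟩ := phi_bound H m hη hz'
    rw [der z hz' A hA]
    beta_reduce
    rw [hB, add_sub_cancel_left, add_sub_cancel_left]
    generalize -G / ell c dl m r = t at tb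
    have q : ‖t * (z * B) / z‖ ≤ ‖t‖ * ‖B‖ := by
      by_cases h0 : z = 0
      · rw [h0, div_zero, norm_zero]; positivity
      · rw [← norm_mul]; apply le_of_eq; congr 1; field_simp
    have p1 := norm_sub_le (t * A) (t * (z * B) / z)
    have p2 := norm_add_le (t * A) (t * (z * B) / z)
    rw [norm_mul] at p1 p2
    have p3 : ‖t‖ * (‖A‖ + ‖B‖) ≤ ‖t‖ * 32 := mul_le_mul_of_nonneg_left hAB (norm_nonneg t)
    nlinarith [norm_nonneg t]
  · have h := e.add hf ((dif_phi H m hη).const_mul _)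
      ((HS_phi c H m hη (z := z0) (by rw [a]; exact r1)).mul (-G / ell c dl m r))
    refine hs_congr h (fun k => rfl) ?_
    rw [hηz]
    field_simp
    ring

end Pool.Agent.Lib.MP_061dbe_an
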