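import Mathlib

namespace Pool.Agent.Lib.MP_061dbe_an

open Complex Metric Set
open scoped ComplexConjugate

/-! ### The trigonometric inequality -/

lemma normSq_circle (z : ℂ) (hz : normSq z = 1) (p0 p1 p2 p3 : ℂ) :
    normSq (p0 + p1 * z + p2 * z ^ 2 + p3 * z ^ 3) =
      normSq p0 + normSq p1 + normSq p2 + normSq p3
        + 2 * ((p1 * conj p0 + p2 * conj p1 + p3 * conj p2) * z).re
        + 2 * ((p2 * conj p0 + p3 * conj p1) * z ^ 2).re + 2 * ((p3 * conj p0) * z ^ 3).re := by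
  have hzw : z * conj z = 1 := by rw [mul_conj, hz]; simp
  apply ofReal_injective
  have h2 : ∀ a : ℂ, ((2 * a.re : ℝ) : ℂ) = a + conj a := fun a => (add_conj a).symm
  simp only [ofReal_add, h2, ← mul_conj, map_add, map_mul, map_pow, conj_conj]
  generalize conj z = w at hzw ⊢
  linear_combination (p1 * conj p1 + p2 * conj p2 * (1 + z * w)
    + p3 * conj p3 * (1 + z * w + (z * w) ^ 2)
    + (p2 * conj p1 * z + p1 * conj p2 * w) + (p3 * conj p2 * z + p2 * conj p3 * w) * (1 + z * w)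
    + (p3 * conj p1 * z ^ 2 + p1 * conj p3 * w ^ 2)) * hzw

noncomputable def d2 : ℂ := ⟨2188 / 10000, 0⟩
noncomputable def d3 : ℂ := ⟨-505 / 10000, -1590 / 10000⟩
noncomputable def d4 : ℂ := ⟨47 / 10000, -1029 / 10000⟩
noncomputable def d5 : ℂ := ⟨574 / 10000, 169 / 10000⟩

noncomputable def A0 (z : ℂ) : ℂ := d2 + (2 * d3) * z + (3 * d4) * z ^ 2 + (4 * d5) * z ^ 3
noncomputable def B0 (z : ℂ) : ℂ := 3 * d2 + (4 * d3) * z + (5 * d4) * z ^ 2 + (6 * d5) * z ^ 3

lemma circle_sq (z : ℂ) (hz : normSq z = 1) : 3 * normSq (A0 z) + 3 / 2 * normSq (B0 z) ≤ 4 := by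
  have hQ := normSq_nonneg ((⟨37 / 50, 0⟩ : ℂ) + (⟨-2423 / 10000, 17 / 200⟩ : ℂ) * z
    + (⟨537 / 2500, 1477 / 10000⟩ : ℂ) * z ^ 2 + (⟨-6619 / 10000, -1949 / 10000⟩ : ℂ) * z ^ 3)
  rw [normSq_circle z hz] at hQ
  rw [A0, B0, normSq_circle z hz, normSq_circle z hz]
  have hn : ‖z‖ = 1 := by
    have := normSq_eq_norm_sq z
    rw [hz] at this
    nlinarith [norm_nonneg z]
  have hb : ∀ k : ℕ, |(z ^ k).re| ≤ 1 ∧ |(z ^ k).im| ≤ 1 := fun k => by
    have : ‖z ^ k‖ = 1 := by rw [norm_pow, hn, one_pow]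
    exact ⟨this ▸ abs_re_le_norm _, this ▸ abs_im_le_norm _⟩
  have h1 := hb 1
  have h2 := hb 2
  have h3 := hb 3
  rw [pow_one] at h1
  simp only [abs_le] at h1 h2 h3
  generalize z ^ 2 = z2 at *
  generalize z ^ 3 = z3 at *
  simp only [d2, d3, d4, d5, normSq_apply, mul_re, mul_im, add_re, add_im, conj_re, conj_im,
    re_ofNat, im_ofNat] at hQ ⊢
  linarith [h1.1.1, h1.1.2, h1.2.1, h1.2.2, h2.1.1, h2.1.2, h2.2.1, h2.2.2, h3.1.1, h3.1.2, h3.2.1,
    h3.2.2]

lemma circle_bound (z : ℂ) (hz : ‖z‖ = 1) : ‖A0 z‖ + ‖B0 z‖ ≤ 2 := by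
  have h := circle_sq z (by rw [normSq_eq_norm_sq, hz]; norm_num)
  rw [normSq_eq_norm_sq, normSq_eq_norm_sq] at h
  nlinarith [sq_nonneg (2 * ‖A0 z‖ - ‖B0 z‖), norm_nonneg (A0 z), norm_nonneg (B0 z),
    sq_nonneg (‖A0 z‖ + ‖B0 z‖ - 2)]

lemma exists_unit (a : ℂ) : ∃ u : ℂ, ‖u‖ = 1 ∧ u * a = ‖a‖ := by
  by_cases h : a = 0
  · exact ⟨1, by simp, by simp [h]⟩
  · have hn : (‖a‖ : ℂ) ≠ 0 := by simpa using h
    refine ⟨‖a‖ / a, by simp [h], by field_simp⟩

lemma disc_bound (z : ℂ) (hz : ‖z‖ < 1) : ‖A0 z‖ + ‖B0 z‖ ≤ 2 := by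
  obtain ⟨u, hu, hua⟩ := exists_unit (A0 z)
  obtain ⟨w, hw, hwb⟩ := exists_unit (B0 z)
  have hd : Differentiable ℂ (fun y => u * A0 y + w * B0 y) := by
    unfold A0 B0; fun_prop
  have h := norm_le_of_forall_mem_frontier_norm_le (U := ball (0 : ℂ) 1) (C := 2) isBounded_ball
    hd.diffContOnCl (fun y hy => by
      rw [frontier_ball _ one_ne_zero, mem_sphere_zero_iff_norm] at hy
      calc ‖u * A0 y + w * B0 y‖ ≤ ‖u * A0 y‖ + ‖w * B0 y‖ := norm_add_le _ _
        _ = ‖A0 y‖ + ‖B0 y‖ := by rw [norm_mul, norm_mul, hu, hw, one_mul, one_mul]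
        _ ≤ 2 := circle_bound y hy)
    (z := z) (subset_closure (by simpa using hz))
  rw [hua, hwb, ← ofReal_add, norm_real, Real.norm_eq_abs] at h
  exact (le_abs_self _).trans h

/-! ### The spirallike function -/

noncomputable def cc : ℂ := ⟨19967 / 10000, 8 / 100⟩

noncomputable def EE (z : ℂ) : ℂ := exp (-cc * log (1 - z))

noncomputable def hh (z : ℂ) : ℂ := z * EE z

lemma slit (z : ℂ) (hz : ‖z‖ < 1) : 1 - z ∈ slitPlane := by
  left
  have := (abs_le.mp (abs_re_le_norm z)).2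
  simp; linarith

lemma one_sub_ne (z : ℂ) (hz : ‖z‖ < 1) : 1 - z ≠ 0 := slitPlane_ne_zero (slit z hz)

lemma hasDerivAt_log (z : ℂ) (hz : ‖z‖ < 1) :
    HasDerivAt (fun y => log (1 - y)) (-(1 - z)⁻¹) z := by
  have h : HasDerivAt (fun y => log (1 - y)) (-1 / (1 - z)) z :=
    ((hasDerivAt_id z).const_sub 1).clog (slit z hz)
  exact h.congr_deriv (by ring)

lemma hasDerivAt_EE (z : ℂ) (hz : ‖z‖ < 1) : HasDerivAt EE (cc * (1 - z)⁻¹ * EE z) z := by
  have h : HasDerivAt EE (EE z * (-cc * -(1 - z)⁻¹)) z :=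
    ((hasDerivAt_log z hz).const_mul (-cc)).cexp
  exact h.congr_deriv (by ring)

/-- rising factorial of `cc` -/
noncomputable def rf : ℕ → ℂ
  | 0 => 1
  | k + 1 => rf k * (cc + k)

noncomputable def FF (k : ℕ) (z : ℂ) : ℂ := rf k * EE z * ((1 - z)⁻¹) ^ k

lemma hasDerivAt_FF (k : ℕ) (z : ℂ) (hz : ‖z‖ < 1) : HasDerivAt (FF k) (FF (k + 1) z) z := by
  have h1 : HasDerivAt (fun y : ℂ => (1 - y)⁻¹) (((1 - z)⁻¹) ^ 2) z := by
    have h : HasDerivAt (fun y : ℂ => (1 - y)⁻¹) (- -1 / (1 - z) ^ 2) z :=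
      ((hasDerivAt_id z).const_sub 1).inv (one_sub_ne z hz)
    exact h.congr_deriv (by rw [inv_pow, neg_neg, one_div])
  have h : HasDerivAt (FF k) _ z := ((hasDerivAt_EE z hz).const_mul (rf k)).mul (h1.pow k)
  refine h.congr_deriv ?_
  unfold FF
  rw [rf]
  cases k with
  | zero => simp; ring
  | succ k => simp only [Nat.add_sub_cancel]; push_cast; ring

lemma iteratedDeriv_hh (k : ℕ) : ∀ z : ℂ, ‖z‖ < 1 →
    iteratedDeriv (k + 1) hh z = z * FF (k + 1) z + (k + 1) * FF k z := by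
  induction k with
  | zero =>
    intro z hz
    have h := (hasDerivAt_id z).mul (hasDerivAt_FF 0 z hz)
    have e : hh = (id * FF 0) := by ext y; simp [hh, FF, rf]
    rw [zero_add, iteratedDeriv_one, e, h.deriv]
    simp; ring
  | succ k ih =>
    intro z hz
    rw [iteratedDeriv_succ]
    have e : iteratedDeriv (k + 1) hh =ᶠ[nhds z]
        fun y => y * FF (k + 1) y + (k + 1) * FF k y := by
      filter_upwards [isOpen_ball.mem_nhds (show z ∈ ball (0 : ℂ) 1 by simpa using hz)] with y hy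
      exact ih y (by simpa using hy)
    rw [e.deriv_eq]
    have h := ((hasDerivAt_id z).mul (hasDerivAt_FF (k + 1) z hz)).add
      ((hasDerivAt_FF k z hz).const_mul ((k : ℂ) + 1))
    have h' : HasDerivAt (fun y => y * FF (k + 1) y + (k + 1) * FF k y) _ z := h
    rw [h'.deriv]
    push_cast
    simp only [id]
    ring

lemma iteratedDeriv_hh_zero (k : ℕ) : iteratedDeriv (k + 1) hh 0 = (k + 1) * rf k := by
  rw [iteratedDeriv_hh k 0 (by simp)]
  simp [FF, EE]

lemma differentiableOn_hh : DifferentiableOn ℂ hh (ball 0 1) := fun z hz =>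
  ((hasDerivAt_id z).mul (hasDerivAt_EE z (by simpa using hz))).differentiableAt.differentiableWithinAt

noncomputable def GG (w : ℂ) : ℂ := conj cc * (w - cc * log (1 - exp w))

lemma norm_exp_lt (w : ℂ) (hw : w.re < 0) : ‖exp w‖ < 1 := by
  rw [norm_exp]; exact Real.exp_lt_one_iff.mpr hw

lemma hasDerivAt_GG (w : ℂ) (hw : w.re < 0) :
    HasDerivAt GG (conj cc * (1 + cc * (exp w * (1 - exp w)⁻¹))) w := by
  have h1 := (hasDerivAt_log (exp w) (norm_exp_lt w hw)).comp w (hasDerivAt_exp w)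
  have h : HasDerivAt GG _ w := (((hasDerivAt_id w).sub (h1.const_mul cc))).const_mul (conj cc)
  exact h.congr_deriv (by ring)

lemma re_deriv_pos (z : ℂ) (hz : ‖z‖ < 1) : 0 < (conj cc * (1 + cc * (z * (1 - z)⁻¹))).re := by
  have hne := one_sub_ne z hz
  have hN : 0 < normSq (1 - z) := normSq_pos.mpr hne
  have h1 : -1 / 2 < (z * (1 - z)⁻¹).re := by
    have hs : normSq z < 1 := by
      rw [normSq_eq_norm_sq]; nlinarith [norm_nonneg z]
    rw [← div_eq_mul_inv, div_re, ← add_div, lt_div_iff₀ hN]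
    simp only [normSq_apply, sub_re, sub_im, one_re, one_im] at hs ⊢
    nlinarith
  have e : conj cc * (1 + cc * (z * (1 - z)⁻¹)) = conj cc + (normSq cc : ℂ) * (z * (1 - z)⁻¹) := by
    rw [← mul_conj]; ring
  rw [e, add_re, re_ofReal_mul]
  simp only [cc, conj_re, normSq_apply]
  nlinarith

lemma injOn_GG (w1 w2 : ℂ) (h1 : w1.re < 0) (h2 : w2.re < 0) (h : GG w1 = GG w2) : w1 = w2 := by
  by_contra hne
  have hd : w2 - w1 ≠ 0 := sub_ne_zero.mpr (Ne.symm hne)
  have hre : ∀ t : ℝ, t ∈ Icc (0 : ℝ) 1 → (w1 + t * (w2 - w1)).re < 0 := by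
    intro t ht
    simp only [add_re, re_ofReal_mul, sub_re]
    rcases eq_or_lt_of_le ht.1 with h0 | h0
    · rw [← h0]; simpa using h1
    · nlinarith [ht.2, mul_pos h0 (neg_pos.mpr h2), mul_nonneg (sub_nonneg.mpr ht.2) (neg_pos.mpr h1).le]
  have hder : ∀ t : ℝ, t ∈ Icc (0 : ℝ) 1 → HasDerivAt
      (fun s : ℝ => (GG (w1 + s * (w2 - w1)) / (w2 - w1)).re)
      (conj cc * (1 + cc * (exp (w1 + t * (w2 - w1)) * (1 - exp (w1 + t * (w2 - w1)))⁻¹))).re t := by
    intro t ht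
    have a1 : HasDerivAt (fun s : ℂ => w1 + s * (w2 - w1)) (w2 - w1) (t : ℂ) := by
      simpa using ((hasDerivAt_id (t : ℂ)).mul_const (w2 - w1)).const_add w1
    have a2 := ((hasDerivAt_GG _ (hre t ht)).comp (t : ℂ) a1).div_const (w2 - w1)
    rw [mul_div_cancel_right₀ _ hd] at a2
    exact a2.real_of_complex
  obtain ⟨t, ht, hts⟩ := exists_hasDerivAt_eq_slope
    (fun s : ℝ => (GG (w1 + s * (w2 - w1)) / (w2 - w1)).re) _ zero_lt_one
    (fun t ht => (hder t ht).continuousAt.continuousWithinAt)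
    (fun t ht => hder t (Ioo_subset_Icc_self ht))
  have hp := re_deriv_pos _ (norm_exp_lt _ (hre t (Ioo_subset_Icc_self ht)))
  rw [hts] at hp
  simp [h] at hp

lemma injOn_hh : InjOn hh (ball 0 1) := by
  intro z1 hz1 z2 hz2 h
  have n1 : ‖z1‖ < 1 := by simpa using hz1
  have n2 : ‖z2‖ < 1 := by simpa using hz2
  have hE : ∀ z, EE z ≠ 0 := fun z => exp_ne_zero _
  by_cases e1 : z1 = 0
  · subst e1
    have : z2 * EE z2 = 0 := by simpa [hh] using h.symm
    exact ((mul_eq_zero.mp this).resolve_right (hE _)).symm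
  by_cases e2 : z2 = 0
  · subst e2
    have : z1 * EE z1 = 0 := by simpa [hh] using h
    exact (mul_eq_zero.mp this).resolve_right (hE _)
  have hl : ∀ z : ℂ, z ≠ 0 → hh z = exp (log z - cc * log (1 - z)) := by
    intro z hz
    rw [hh, EE, sub_eq_add_neg (log z), exp_add, exp_log hz, neg_mul]
  rw [hl z1 e1, hl z2 e2, exp_eq_exp_iff_exists_int] at h
  obtain ⟨n, hn⟩ := h
  have hre : ∀ z : ℂ, z ≠ 0 → ‖z‖ < 1 → (log z).re < 0 := by
    intro z hz hn
    rw [log_re]; exact Real.log_neg (norm_pos_iff.mpr hz) hn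
  have x2 : exp (log z2 + n * (2 * Real.pi * I)) = z2 := by
    rw [exp_add, exp_log e2, exp_int_mul_two_pi_mul_I, mul_one]
  have key := injOn_GG (log z1) (log z2 + n * (2 * Real.pi * I)) (hre z1 e1 n1)
    (by simpa using hre z2 e2 n2) (by
      unfold GG
      rw [x2, exp_log e1, hn]; ring)
  rw [← x2, ← key, exp_log e1]

/-! ### The polynomial -/

noncomputable def rr : ℂ := 9999 / 10000

noncomputable def LL : ℂ := d2 * rf 1 * rr + d3 * (rf 2 / 2) * rr ^ 2 + d4 * (rf 3 / 6) * rr ^ 3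
  + d5 * (rf 4 / 24) * rr ^ 4

lemma one_le_LL : 1 ≤ ‖LL‖ := by
  have e : LL = (⟨2591579540622933755499286852580954709 / 4000000000000000000000000000000000000,
      -6095415617467336618890227269515160317 / 8000000000000000000000000000000000000⟩ : ℂ) := by
    apply Complex.ext <;>
      simp [LL, rf, rr, d2, d3, d4, d5, cc, pow_succ] <;> norm_num
  have : 1 ≤ normSq LL := by rw [e, normSq_apply]; norm_num
  rw [normSq_eq_norm_sq] at this
  nlinarith [norm_nonneg LL]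

noncomputable def mu : ℂ := -LL⁻¹

lemma norm_mu : ‖mu‖ ≤ 1 := by
  rw [mu, norm_neg, norm_inv]; exact inv_le_one_of_one_le₀ one_le_LL

lemma mu_LL : mu * LL = -1 := by
  have : LL ≠ 0 := by
    intro h; have := one_le_LL; rw [h, norm_zero] at this; linarith
  rw [mu]; field_simp

noncomputable def gp : Polynomial ℂ := Polynomial.monomial 1 1 + Polynomial.monomial 2 (mu * d2)
  + Polynomial.monomial 3 (mu * d3) + Polynomial.monomial 4 (mu * d4) + Polynomial.monomial 5 (mu * d5)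

noncomputable def gg (z : ℂ) : ℂ := gp.eval z

lemma iteratedDeriv_eval (p : Polynomial ℂ) (k : ℕ) :
    iteratedDeriv k (fun z => p.eval z) = fun z => (Polynomial.derivative^[k] p).eval z := by
  induction k with
  | zero => simp
  | succ k ih =>
    rw [iteratedDeriv_succ, ih, Function.iterate_succ_apply']
    ext z
    exact Polynomial.deriv _

lemma coef_gg (k : ℕ) : iteratedDeriv k gg 0 / (k.factorial : ℂ) = gp.coeff k := by
  have hk : (k.factorial : ℂ) ≠ 0 := by exact_mod_cast k.factorial_ne_zero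
  unfold gg
  rw [iteratedDeriv_eval, div_eq_iff hk]
  simp only [← Polynomial.coeff_zero_eq_eval_zero, Polynomial.coeff_iterate_derivative, zero_add,
    Nat.descFactorial_self, nsmul_eq_mul]
  ring

lemma gg_eq (z : ℂ) : gg z = z + mu * (d2 * z ^ 2 + d3 * z ^ 3 + d4 * z ^ 4 + d5 * z ^ 5) := by
  simp [gg, gp]; ring

lemma deriv_gg (z : ℂ) :
    deriv gg z = 1 + mu * (2 * d2 * z + 3 * d3 * z ^ 2 + 4 * d4 * z ^ 3 + 5 * d5 * z ^ 4) := by
  unfold gg
  rw [Polynomial.deriv]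
  simp [gp]; ring

lemma sigma_bound (z : ℂ) (hz : ‖z‖ < 1) :
    ‖(deriv gg z - 1) - (gg z - z) / z‖ + ‖(deriv gg z - 1) + (gg z - z) / z‖ < 2 := by
  by_cases h0 : z = 0
  · subst h0; simp [deriv_gg]
  have e1 : (deriv gg z - 1) - (gg z - z) / z = mu * z * A0 z := by
    rw [deriv_gg, gg_eq, A0]; field_simp; ring
  have e2 : (deriv gg z - 1) + (gg z - z) / z = mu * z * B0 z := by
    rw [deriv_gg, gg_eq, B0]; field_simp; ring
  rw [e1, e2, norm_mul, norm_mul (mu * z), ← mul_add, norm_mul]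
  have h1 := disc_bound z hz
  have h2 : ‖mu‖ * ‖z‖ < 1 := by
    nlinarith [norm_mu, norm_nonneg z, norm_nonneg mu]
  have h3 : 0 ≤ ‖mu‖ * ‖z‖ := by positivity
  nlinarith [norm_nonneg (A0 z), norm_nonneg (B0 z)]

lemma hadamard_zero : ∑' k : ℕ, (iteratedDeriv k gg 0 / (k.factorial : ℂ)) *
    (iteratedDeriv k hh 0 / (k.factorial : ℂ)) * rr ^ k = 0 := by
  rw [tsum_eq_sum (s := Finset.range 6)]
  · simp only [Finset.sum_range_succ, Finset.sum_range_zero, coef_gg]
    have i1 := iteratedDeriv_hh_zero 0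
    have i2 := iteratedDeriv_hh_zero 1
    have i3 := iteratedDeriv_hh_zero 2
    have i4 := iteratedDeriv_hh_zero 3
    have i5 := iteratedDeriv_hh_zero 4
    simp only [zero_add, Nat.reduceAdd] at i1 i2 i3 i4 i5
    rw [i1, i2, i3, i4, i5]
    have h := mu_LL
    unfold LL at h
    have r0 : rf 0 = 1 := rfl
    simp [gp, Polynomial.coeff_monomial, Nat.factorial, r0]
    linear_combination rr * h
  · intro k hk
    have hk' : 6 ≤ k := by simpa using hk
    rw [coef_gg]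
    have : gp.coeff k = 0 := by
      simp only [gp, Polynomial.coeff_add, Polynomial.coeff_monomial]
      rw [if_neg (by omega), if_neg (by omega), if_neg (by omega), if_neg (by omega),
        if_neg (by omega)]
      simp
    rw [this]; simp

end Pool.Agent.Lib.MP_061dbe_an
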